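import Mathlib
import Pool.Agent.Lib.helper13.TangCore

set_option autoImplicit false

namespace Pool.Agent.Results.MP_4e9c6d_co.Normal

open Pool.Agent.Lib.H13Tang
open scoped Matroid

/-- Tangential `k`-blocks over the finite field `F`. -/
def IsTangentialBlock {α : Type} [Finite α] (F : Type) [Field F] [Fintype F] (k : ℕ)
    (M : Matroid α) : Prop :=
  Simple M ∧ Representable F M ∧ ¬ CritLE M (Fintype.card F) k ∧
    ∀ X, M.IsFlat X → X.Nonempty → CritLE (M ／ X) (Fintype.card F) k

/-- `H` is a modular hyperplane of `M`. -/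
def IsModularHyperplane {α : Type} (M : Matroid α) (H : Set α) : Prop :=
  IsModularFlat M H ∧ rk M H + 1 = rk M M.E

theorem result (α : Type) [Finite α] (F : Type) [Field F] [Fintype F] (k : ℕ) (M : Matroid α)
    (hM : IsTangentialBlock F k M) (H : Set α) (hH : IsModularHyperplane M H) :
    Normal M (Fintype.card F) k := by
  obtain ⟨hs, ⟨d, φ, hφ⟩, hblock, htan⟩ := hM
  have h : Rep F M φ := hφ
  refine core h hs hH.1 hH.2 k (fun hL => hblock ((h.critLE_iff k).2 hL)) fun a ha => ?_
  obtain ⟨π, hπ⟩ := exists_proj (F := F) (φ a)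
  obtain ⟨L, hL⟩ := ((h.contract (hs.isNonloop ha) π hπ).critLE_iff k).1
    (htan {a} (h.isFlat_singleton hs ha) (Set.singleton_nonempty a))
  refine ⟨L ∘ₗ π, ?_, fun e he hea => hL e ⟨he, hea⟩⟩
  have : φ a ∈ LinearMap.ker π := hπ ▸ Submodule.mem_span_singleton_self _
  rw [LinearMap.comp_apply, LinearMap.mem_ker.1 this, map_zero]

end Pool.Agent.Results.MP_4e9c6d_co.Normal
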